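import Pool.Agent.Helper45.AM.GoalsA
import Pool.Agent.Helper45.AM.GoalsB
import Pool.Agent.Helper15.AM.GoalsG

/-!
# Project AM, packet B_6: `a'(x l) = max(α(l), a'(x LK(l)))`.
-/

set_option autoImplicit false

open LaurentPolynomial Pool.Agent.Helper15.RA Pool.Agent.Helper45.AM Pool.Agent.Helper15.AM

noncomputable section

namespace Pool.Agent.Helper31.AM

theorem eq_not_of_ne' {a b : Bool} (h : a ≠ b) : a = !b := by
  revert a b
  decide

theorem b6_aux (hPA : G_PA) (hPB : G_PB) (hPC : G_PC) (hAP : A_P) (hB1 : B_1) (hB5 : B_5)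
    (S W H : Type) [Group W] [Ring H] [Algebra ℤ[T;T⁻¹] H] (X : AC S W H)
    (b : Bool) (x : W) (hx : XR X.cs (X.F b) x) (m : ℕ) :
    ∀ (n : ℕ) (κ y : W), κ ∈ par X.cs X.K → XL X.cs X.K y → κ * y ∈ par X.cs (X.F b) →
      ∀ (u g u' : W) (c : Bool), g ∈ par X.cs (X.F c) → x * (κ * y) = u * g * u' →
        X.cs.length (x * (κ * y)) = X.cs.length u + X.cs.length g + X.cs.length u' →
        m ≤ X.α g → X.cs.length u' = n → m ≤ X.α (κ * y) ∨ X.Ge m (x * κ) := by
  obtain ⟨b1, b2, b3, b4, b5, b6, b7, b8, -⟩ := hB1 S W H X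
  obtain ⟨g5, -⟩ := hB5 S W H X
  have hadd : ∀ (P : Set S) (z : W), XR X.cs P z → ∀ k ∈ par X.cs P,
      X.cs.length (z * k) = X.cs.length z + X.cs.length k := fun P => (hPA S W X.M X.cs P).2.2
  have hfac : ∀ (P : Set S) (u v : W), X.cs.length (u * v) = X.cs.length u + X.cs.length v →
      u * v ∈ par X.cs P → u ∈ par X.cs P ∧ v ∈ par X.cs P := fun P =>
    ((hPB S W X.M X.cs).2 P).2.2.2.2.1
  have hα : ∀ (c : Bool), ∀ u ∈ par X.cs (X.F c), ∀ g ∈ par X.cs (X.F c),
      X.cs.length (u * g) = X.cs.length u + X.cs.length g → X.α u ≤ X.α (u * g) ∧ X.α g ≤ X.α (u * g) :=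
    fun c => (hAP S W H X.toBase (X.F c) X.α (X.pg c)).2.2.2.2.2
  have hsi : ∀ (P : Set S) (i : S), i ∈ P → X.cs.simple i ∈ par X.cs P := fun P i hi =>
    Subgroup.subset_closure ⟨i, hi, rfl⟩
  have hKsub : X.K ⊆ X.F b := by
    intro i hi
    cases b
    · exact hi.2
    · exact hi.1
  intro n
  induction n using Nat.strong_induction_on with
  | _ n ih =>
  intro κ y hκ hy hl u g u' c hg hw hlen hm hn
  by_cases hlK : κ * y ∈ par X.cs X.K
  · have hyK : y ∈ par X.cs X.K := by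
      have := mul_mem (inv_mem hκ) hlK
      rwa [inv_mul_cancel_left] at this
    have hy1 : y = 1 := b8 y (Or.inr hy) hyK
    right
    refine ⟨u, g, u', c, hg, ?_, ?_, hm⟩
    · rw [← hw, hy1, mul_one]
    · rw [← hlen, hy1, mul_one]
  -- `l = z k`
  obtain ⟨z, k, hk, hz, hzk⟩ := (hPA S W X.M X.cs X.K).2.1 (κ * y)
  have hlzk : X.cs.length (z * k) = X.cs.length z + X.cs.length k := hadd X.K z hz k hk
  have hzb : z ∈ par X.cs (X.F b) ∧ k ∈ par X.cs (X.F b) := by
    apply hfac _ _ _ hlzk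
    rw [← hzk]
    exact hl
  have hz1 : z ≠ 1 := by
    intro h
    apply hlK
    rw [hzk, h, one_mul]
    exact hk
  have hxz : XR X.cs (X.F (!b)) (x * z) := by
    apply b7 (!b) x z _ _ hz hz1
    · rw [Bool.not_not]; exact hx
    · rw [Bool.not_not]; exact hzb.1
  have hkb : k ∈ par X.cs (X.F (!b)) := b1 (!b) hk
  have hwl : X.cs.length (x * (κ * y)) = X.cs.length x + X.cs.length (κ * y) := hadd _ x hx _ hl
  have hw2 : x * (κ * y) = (x * z) * k := by rw [hzk, mul_assoc]
  have hwl2 : X.cs.length (x * (κ * y)) = X.cs.length (x * z) + X.cs.length k := by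
    rw [hw2]
    exact hadd _ _ hxz _ hkb
  by_cases hu' : u' = 1
  · subst hu'
    rw [mul_one] at hw
    rw [X.cs.length_one, add_zero] at hlen
    left
    by_cases hcb : c = b
    · subst hcb
      obtain ⟨x₂, l₂, hl₂, hx₂, hu⟩ := (hPA S W X.M X.cs (X.F c)).2.1 u
      have hul : X.cs.length u = X.cs.length x₂ + X.cs.length l₂ := by
        rw [hu]
        exact hadd _ _ hx₂ _ hl₂
      have huniq := (hPC S W X.M X.cs (X.F c)).1 x x₂ (κ * y) (l₂ * g) hx hx₂ hl (mul_mem hl₂ hg)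
        (by rw [hw, hu, mul_assoc])
      obtain ⟨e1, e2⟩ := huniq
      have hll : X.cs.length (l₂ * g) = X.cs.length l₂ + X.cs.length g := by
        rw [← e2]
        rw [← e1] at hul
        omega
      rw [e2]
      exact hm.trans (hα c l₂ hl₂ g hg hll).2
    · have hcb' : c = !b := eq_not_of_ne' hcb
      subst hcb'
      obtain ⟨x₂, l₂, hl₂, hx₂, hu⟩ := (hPA S W X.M X.cs (X.F (!b))).2.1 u
      have hul : X.cs.length u = X.cs.length x₂ + X.cs.length l₂ := by
        rw [hu]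
        exact hadd _ _ hx₂ _ hl₂
      have huniq := (hPC S W X.M X.cs (X.F (!b))).1 (x * z) x₂ k (l₂ * g) hxz hx₂ hkb
        (mul_mem hl₂ hg) (by rw [← hw2, hw, hu, mul_assoc])
      obtain ⟨e1, e2⟩ := huniq
      have hll : X.cs.length (l₂ * g) = X.cs.length l₂ + X.cs.length g := by
        rw [← e2]
        rw [← e1] at hul
        omega
      have h1 : X.α g ≤ X.α k := by
        rw [e2]
        exact (hα (!b) l₂ hl₂ g hg hll).2
      have h2 : X.α k ≤ X.α (κ * y) := by
        rw [hzk]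
        exact (hα b z hzb.1 k hzb.2 hlzk).2
      exact hm.trans (h1.trans h2)
  · obtain ⟨i, hi⟩ := X.cs.exists_rightDescent_of_ne_one hu'
    have hi1 : X.cs.length (u' * X.cs.simple i) + 1 = X.cs.length u' :=
      X.cs.isRightDescent_iff.1 hi
    have hws : x * (κ * y) * X.cs.simple i = u * g * (u' * X.cs.simple i) := by
      rw [hw, mul_assoc (u * g)]
    have hlt : X.cs.length (x * (κ * y) * X.cs.simple i) < X.cs.length (x * (κ * y)) := by
      rw [hws]
      have h1 := X.cs.length_mul_le (u * g) (u' * X.cs.simple i)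
      have h2 := X.cs.length_mul_le u g
      omega
    have hlw : X.cs.length (x * (κ * y) * X.cs.simple i) + 1 = X.cs.length (x * (κ * y)) :=
      X.cs.isRightDescent_iff.1 hlt
    have hib : i ∈ X.F b := by
      by_contra hib
      have hib' : i ∈ X.F (!b) := by
        obtain ⟨b', hb'⟩ := X.cover i
        by_cases h : b' = b
        · exact absurd (h ▸ hb') hib
        · have : b' = !b := eq_not_of_ne' h
          exact this ▸ hb'
      have h1 : X.cs.length (x * (κ * y) * X.cs.simple i) =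
          X.cs.length (x * z) + X.cs.length (k * X.cs.simple i) := by
        rw [hw2, mul_assoc (x * z)]
        exact hadd _ _ hxz _ (mul_mem hkb (hsi _ i hib'))
      have h2 : X.cs.length (k * X.cs.simple i) < X.cs.length k := by omega
      have h3 : i ∈ X.K := ((hPB S W X.M X.cs).2 X.K).2.1 k hk i h2
      exact hib (hKsub h3)
    have hl₁ : κ * y * X.cs.simple i ∈ par X.cs (X.F b) := mul_mem hl (hsi _ i hib)
    have h1 : X.cs.length (x * (κ * y) * X.cs.simple i) =
        X.cs.length x + X.cs.length (κ * y * X.cs.simple i) := by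
      rw [mul_assoc x]
      exact hadd _ x hx _ hl₁
    have h2 : X.cs.length (κ * y * X.cs.simple i) + 1 = X.cs.length (κ * y) := by omega
    obtain ⟨κ₁, hκ₁, y₂, hy₂, e1⟩ := (hPC S W X.M X.cs X.K).2.2.2.1 (κ * y * X.cs.simple i)
    have hrec := ih (X.cs.length (u' * X.cs.simple i)) (by omega) κ₁ y₂ hκ₁ hy₂ (by rw [← e1]; exact hl₁)
      u g (u' * X.cs.simple i) c hg (by rw [← e1, ← mul_assoc x, hws]) (by
        rw [← e1, ← mul_assoc x]
        omega) hm rfl
    rcases hrec with hrec | hrec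
    · left
      refine hrec.trans ?_
      rw [← e1]
      have h3 : κ * y = κ * y * X.cs.simple i * X.cs.simple i := by
        rw [mul_assoc (κ * y), X.cs.simple_mul_simple_self, mul_one]
      have h4 := (hα b (κ * y * X.cs.simple i) hl₁ (X.cs.simple i) (hsi _ i hib) (by
        rw [← h3, X.cs.length_simple]
        exact h2.symm)).1
      rwa [← h3] at h4
    · right
      obtain ⟨κ₂, hκ₂, y₃, hy₃, e2⟩ := (hPC S W X.M X.cs X.K).2.2.2.1 (y₂ * X.cs.simple i)
      have e3 : κ * y = (κ₁ * κ₂) * y₃ := by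
        rw [mul_assoc κ₁, ← e2, ← mul_assoc, ← e1, mul_assoc (κ * y), X.cs.simple_mul_simple_self,
          mul_one]
      obtain ⟨e4, e5⟩ := (hPC S W X.M X.cs X.K).2.2.2.2.2.1 y y₃ κ (κ₁ * κ₂) hy hy₃ hκ
        (mul_mem hκ₁ hκ₂) e3
      have hadd' := (hPC S W X.M X.cs X.K).2.2.2.2.1
      have l1 : X.cs.length (κ * y) = X.cs.length κ + X.cs.length y := hadd' y hy κ hκ
      have l2 : X.cs.length (κ * y * X.cs.simple i) = X.cs.length κ₁ + X.cs.length y₂ := by
        rw [e1]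
        exact hadd' y₂ hy₂ κ₁ hκ₁
      have l3 : X.cs.length (y₂ * X.cs.simple i) = X.cs.length κ₂ + X.cs.length y₃ := by
        rw [e2]
        exact hadd' y₃ hy₃ κ₂ hκ₂
      have l4 := X.cs.length_mul_le y₂ (X.cs.simple i)
      rw [X.cs.length_simple] at l4
      have l5 := X.cs.length_mul_le κ₁ κ₂
      rw [← e5] at l5
      rw [← e4] at l3
      have l6 : X.cs.length κ = X.cs.length κ₁ + X.cs.length κ₂ := by omega
      have e6 : x * κ = (x * κ₁) * κ₂ := by rw [e5, mul_assoc]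
      rw [e6]
      apply g5
      · rw [← e6, hadd _ x hx κ (b1 b hκ), hadd _ x hx κ₁ (b1 b hκ₁), l6]
        ring
      · exact Or.inl hrec

theorem h_b_6 (hPA : G_PA) (hPB : G_PB) (hPC : G_PC) (hAP : A_P) (hB1 : B_1) (hB5 : B_5) : B_6 := by
  intro S W H _ _ _ X
  have hmain : ∀ b x κ y, XR X.cs (X.F b) x → κ ∈ par X.cs X.K → XL X.cs X.K y →
      κ * y ∈ par X.cs (X.F b) → ∀ m, X.Ge m (x * (κ * y)) → m ≤ X.α (κ * y) ∨ X.Ge m (x * κ) := by
    intro b x κ y hx hκ hy hl m hGe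
    obtain ⟨u, g, u', c, hg, hw, hlen, hm⟩ := hGe
    exact b6_aux hPA hPB hPC hAP hB1 hB5 S W H X b x hx m _ κ y hκ hy hl u g u' c hg hw hlen hm rfl
  refine ⟨hmain, ?_⟩
  intro b x κ y hx hκ hy hl m hGe
  have hinv := (hB5 S W H X).2.2.2.2.2.2.1
  have hxi : XL X.cs X.K x⁻¹ := by
    rw [(hPC S W X.M X.cs X.K).2.2.1, inv_inv]
    exact hx
  have hyi : XR X.cs (X.F b) y⁻¹ := ((hPC S W X.M X.cs (X.F b)).2.2.1 y).1 hy
  have h1 := hmain b y⁻¹ κ⁻¹ x⁻¹ hyi (inv_mem hκ) hxi (by
    rw [← mul_inv_rev]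
    exact inv_mem hl) m (by
      rw [← mul_inv_rev, ← mul_inv_rev, ← hinv]
      exact hGe)
  rcases h1 with h1 | h1
  · left
    rw [← mul_inv_rev, (hAP S W H X.toBase (X.F b) X.α (X.pg b)).2.2.2.1 _ hl] at h1
    exact h1
  · right
    rw [hinv, mul_inv_rev]
    exact h1

end Pool.Agent.Helper31.AM
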